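import Pool.Agent.Lib_helper60.PQ.Defs
import Pool.Agent.Lib_helper72.TM32.K1a

/-! # Project PQ, block R1: every class of `ℤ[√-n]` has a representative ideal of norm prime to `2n` -/

set_option autoImplicit false

namespace Pool.Agent.PQ

open Finset Pool.Agent.TM32

namespace R1

/-- the prime ideal over a prime divisor `l` of `2n` -/
theorem pl_exists (n l : ℕ) (hl : l.Prime) (h : l ∣ 2 * n) : ∃ P : Ideal (Od n), P ≠ 1 ∧
    ((l : ℤ) : Od n) ∈ P ∧
    ∀ (m r : ℤ) (z : Od n), (l : ℤ) ∣ m → m ∣ r ^ 2 + n → m ∣ z.re + r * z.im → z ∈ P := by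
  obtain ⟨s, hs1, hs2⟩ : ∃ s : ℤ, (l : ℤ) ∣ s ^ 2 + n ∧ ∀ r : ℤ, (l : ℤ) ∣ r ^ 2 + n → (l : ℤ) ∣ r - s := by
    by_cases hn : l ∣ n
    · have hn' : (l : ℤ) ∣ (n : ℤ) := by exact_mod_cast hn
      refine ⟨0, by simpa using hn', fun r hr => ?_⟩
      have h1 : (l : ℤ) ∣ r ^ 2 := (dvd_add_left hn').1 hr
      rw [sub_zero]
      exact (Nat.prime_iff_prime_int.1 hl).dvd_of_dvd_pow h1
    · have h2 : l = 2 := by
        rcases (Nat.Prime.dvd_mul hl).1 h with h3 | h3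
        · exact (Nat.prime_dvd_prime_iff_eq hl Nat.prime_two).1 h3
        · exact absurd h3 hn
      subst h2
      have hn2 : n % 2 = 1 := by omega
      refine ⟨1, by push_cast; omega, fun r hr => ?_⟩
      by_contra hc
      have hr2 : r % 2 = 0 := by push_cast at hc; omega
      obtain ⟨t, ht⟩ : ∃ t, r = 2 * t := ⟨r / 2, by omega⟩
      subst ht
      have h4 : ((2 * t) ^ 2 + (n : ℤ)) = 2 * (2 * t ^ 2) + n := by ring
      rw [h4] at hr
      push_cast at hr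
      omega
  have hss : ((s : ZMod l)) * (s : ZMod l) = ((-(n : ℤ) : ℤ) : ZMod l) := by
    have h1 : (((s ^ 2 + n : ℤ)) : ZMod l) = 0 := (ZMod.intCast_zmod_eq_zero_iff_dvd _ l).2 hs1
    push_cast at h1 ⊢
    linear_combination h1
  let f : Od n →+* ZMod l := Zsqrtd.lift ⟨(s : ZMod l), hss⟩
  have hf : ∀ z : Od n, f z = (z.re : ZMod l) + (z.im : ZMod l) * (s : ZMod l) := fun z => rfl
  refine ⟨RingHom.ker f, ?_, ?_, ?_⟩
  · intro h1
    have h2 : (1 : Od n) ∈ RingHom.ker f := by rw [h1, Ideal.one_eq_top]; trivial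
    rw [RingHom.mem_ker, map_one] at h2
    have : Fact l.Prime := ⟨hl⟩
    exact one_ne_zero h2
  · rw [RingHom.mem_ker, map_intCast]
    simp
  · intro m r z h1 h2 h3
    rw [RingHom.mem_ker, hf]
    have h4 := hs2 r (h1.trans h2)
    have h5 := h1.trans h3
    have h6 : ((r - s : ℤ) : ZMod l) = 0 := (ZMod.intCast_zmod_eq_zero_iff_dvd _ l).2 h4
    have h7 : ((z.re + r * z.im : ℤ) : ZMod l) = 0 := (ZMod.intCast_zmod_eq_zero_iff_dvd _ l).2 h5
    push_cast at h6 h7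
    linear_combination h7 - (z.im : ZMod l) * h6

/-- an element of `J` outside of `J P` for finitely many ideals `P` over different primes -/
theorem avoid {n : ℕ} (J : Ideal (Od n)) (P : ℕ → Ideal (Od n))
    (S : Finset ℕ) (hJ : ∀ l ∈ S, ¬ J ≤ J * P l)
    (hS : ∀ l ∈ S, l.Prime ∧ ((l : ℤ) : Od n) ∈ P l) : ∃ x ∈ J, ∀ l ∈ S, x ∉ J * P l := by
  classical
  induction S using Finset.induction_on with
  | empty => exact ⟨0, J.zero_mem, by simp⟩
  | insert a S ha ih =>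
    obtain ⟨x, hx, hxS⟩ := ih (fun l hl => hJ l (Finset.mem_insert_of_mem hl))
      (fun l hl => hS l (Finset.mem_insert_of_mem hl))
    obtain ⟨hap, hal⟩ := hS a (Finset.mem_insert_self a S)
    by_cases hxa : x ∈ J * P a
    · obtain ⟨y, hyJ, hyP⟩ := SetLike.not_le_iff_exists.1 (hJ a (Finset.mem_insert_self a S))
      set t : ℤ := ∏ l ∈ S, (l : ℤ) with ht
      have htS : ∀ l ∈ S, (t : Od n) * y ∈ J * P l := by
        intro l hl
        obtain ⟨u, hu⟩ : (l : ℤ) ∣ t := Finset.dvd_prod_of_mem _ hl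
        rw [hu]
        have h1 : y * ((l : ℤ) : Od n) ∈ J * P l :=
          Ideal.mul_mem_mul hyJ (hS l (Finset.mem_insert_of_mem hl)).2
        have h2 : (((l : ℤ) * u : ℤ) : Od n) * y = (u : Od n) * (y * ((l : ℤ) : Od n)) := by
          push_cast; ring
        rw [h2]
        exact Ideal.mul_mem_left _ _ h1
      have htc : IsCoprime t (a : ℤ) := by
        rw [ht]
        apply IsCoprime.prod_left
        intro l hl
        rw [Nat.isCoprime_iff_coprime, Nat.coprime_primes (hS l (Finset.mem_insert_of_mem hl)).1 hap]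
        rintro rfl
        exact ha hl
      refine ⟨x + (t : Od n) * y, J.add_mem hx (J.mul_mem_left _ hyJ), ?_⟩
      intro l hl
      rcases Finset.mem_insert.1 hl with rfl | hl
      · intro h1
        have h2 : (t : Od n) * y ∈ J * P l := by
          have := Ideal.sub_mem _ h1 hxa
          rwa [add_sub_cancel_left] at this
        apply hyP
        obtain ⟨u, v, huv⟩ := htc
        have h3 : y = (u : Od n) * ((t : Od n) * y) + (v : Od n) * (y * ((l : ℤ) : Od n)) := by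
          have h4 : (u : Od n) * (t : Od n) + (v : Od n) * ((l : ℤ) : Od n) = 1 := by
            rw [← Int.cast_mul, ← Int.cast_mul, ← Int.cast_add, huv, Int.cast_one]
          linear_combination -y * h4
        rw [h3]
        exact Ideal.add_mem _ (Ideal.mul_mem_left _ _ h2)
          (Ideal.mul_mem_left _ _ (Ideal.mul_mem_mul hyJ hal))
      · intro h1
        apply hxS l hl
        have := Ideal.sub_mem _ h1 (htS l hl)
        rwa [add_sub_cancel_right] at this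
    · refine ⟨x, hx, ?_⟩
      intro l hl
      rcases Finset.mem_insert.1 hl with rfl | hl
      · exact hxa
      · exact hxS l hl

/-- division of an ideal contained in a principal one -/
theorem exists_div {R : Type} [CommRing R] [IsDomain R] (x0 : R) (K : Ideal R)
    (hle : K ≤ Ideal.span {x0}) : ∃ Q : Ideal R, Ideal.span {x0} * Q = K := by
  refine ⟨Submodule.comap (LinearMap.mulLeft R x0) K, ?_⟩
  ext z
  rw [Ideal.mem_span_singleton_mul]
  constructor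
  · rintro ⟨q, hq, rfl⟩; exact hq
  · intro hz
    obtain ⟨q, hq⟩ := Ideal.mem_span_singleton'.1 (hle hz)
    refine ⟨q, ?_, by rw [← hq, mul_comm]⟩
    show x0 * q ∈ K
    rw [mul_comm x0 q, hq]; exact hz

/-- every class contains an invertible ideal outside of finitely many ideals (given an avoiding element) -/
theorem exists_avoid {R : Type} [CommRing R] [IsDomain R] (P : ℕ → Ideal R) (S : Finset ℕ)
    (hP : ∀ l ∈ S, P l ≠ 1)
    (hav : ∀ J : Ideal R, (∀ l ∈ S, ¬ J ≤ J * P l) → ∃ x ∈ J, ∀ l ∈ S, x ∉ J * P l)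
    (C : ClassGroup R) :
    ∃ (Q : Ideal R) (hQ : TM32.Inv Q), mkI Q hQ = C ∧ Q ≠ ⊥ ∧ ∀ l ∈ S, ¬ Q ≤ P l := by
  obtain ⟨J, hJ, hJC⟩ := exists_rep_inv (C⁻¹)
  obtain ⟨J', x0, hx0, hJJ'⟩ := hJ
  have hne : ∀ l ∈ S, ¬ J ≤ J * P l := by
    intro l hl hle
    have h1 : J * P l = J := le_antisymm Ideal.mul_le_left hle
    apply hP l hl
    apply span_mul_cancel x0 hx0
    rw [mul_one, ← hJJ']
    calc J * J' * P l = J * P l * J' := by ring
      _ = J * J' := by rw [h1]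
  obtain ⟨x1, hx1J, hx1⟩ := hav J hne
  -- a nonzero element
  obtain ⟨x, hxJ, hx1', hxS⟩ : ∃ x ∈ J, x ≠ 0 ∧ ∀ l ∈ S, x ∉ J * P l := by
    by_cases h0 : x1 = 0
    · refine ⟨x0, ?_, hx0, ?_⟩
      · have : x0 ∈ J * J' := by rw [hJJ']; exact Ideal.mem_span_singleton_self x0
        exact Ideal.mul_le_left this
      · intro l hl
        exfalso
        apply hx1 l hl
        rw [h0]
        exact Ideal.zero_mem _
    · exact ⟨x1, hx1J, h0, hx1⟩
  have hle : Ideal.span {x} * J' ≤ Ideal.span {x0} := by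
    rw [← hJJ']
    exact Ideal.mul_mono_left ((Ideal.span_singleton_le_iff_mem _).2 hxJ)
  obtain ⟨Q, hQ⟩ := exists_div x0 _ hle
  have hJQ : J * Q = Ideal.span {x} := by
    apply span_mul_cancel x0 hx0
    calc Ideal.span {x0} * (J * Q) = J * (Ideal.span {x0} * Q) := by ring
      _ = Ideal.span {x} * (J * J') := by rw [hQ]; ring
      _ = Ideal.span {x0} * Ideal.span {x} := by rw [hJJ']; ring
  have hQI : TM32.Inv Q := ⟨J, x, hx1', by rw [mul_comm, hJQ]⟩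
  have hJ : TM32.Inv J := ⟨J', x0, hx0, hJJ'⟩
  refine ⟨Q, hQI, ?_, ?_, ?_⟩
  · have h1 := mkI_mul J Q hJ hQI (hJ.mul hQI)
    have h2 : mkI (J * Q) (hJ.mul hQI) = 1 := by
      have : ∀ (K : Ideal R) (hK : TM32.Inv K), K = Ideal.span {x} → mkI K hK = 1 := by
        rintro K hK rfl
        exact mkI_span x hx1' hK
      exact this _ _ hJQ
    rw [h2, hJC, eq_comm, inv_mul_eq_one] at h1
    exact h1.symm
  · rintro rfl
    rw [Ideal.mul_bot] at hJQ
    have : x ∈ (⊥ : Ideal R) := by rw [hJQ]; exact Ideal.mem_span_singleton_self x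
    exact hx1' (Ideal.mem_bot.1 this)
  · intro l hl hle
    apply hxS l hl
    have h1 : x ∈ J * Q := by rw [hJQ]; exact Ideal.mem_span_singleton_self x
    exact Ideal.mul_mono_right hle h1

/-- division by the content -/
theorem content {n : ℕ} (Q : Ideal (Od n)) (h0 : Q ≠ ⊥) : ∃ c : ℤ, c ≠ 0 ∧
    Q ≤ Ideal.span {(c : Od n)} ∧ ∀ l : ℤ, Q ≤ Ideal.span {((c * l : ℤ) : Od n)} → l ^ 2 ≤ 1 := by
  obtain ⟨z, hz, hz0⟩ := Submodule.exists_mem_ne_zero_of_ne_bot h0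
  have hb : ∀ c : ℤ, Q ≤ Ideal.span {(c : Od n)} → c.natAbs ≤ z.re.natAbs + z.im.natAbs ∧ c ≠ 0 := by
    intro c hc
    obtain ⟨w, hw⟩ := Ideal.mem_span_singleton.1 (hc hz)
    have h1 : z.re = c * w.re := by rw [hw]; simp
    have h2 : z.im = c * w.im := by rw [hw]; simp
    have hc0 : c ≠ 0 := by
      rintro rfl
      apply hz0
      apply Zsqrtd.ext
      · rw [h1]; simp
      · rw [h2]; simp
    refine ⟨?_, hc0⟩
    by_cases h3 : z.re = 0
    · have h4 : z.im ≠ 0 := by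
        intro h4
        exact hz0 (Zsqrtd.ext h3 h4)
      have := Nat.le_of_dvd (Int.natAbs_pos.2 h4) (Int.natAbs_dvd_natAbs.2 ⟨w.im, h2⟩)
      omega
    · have := Nat.le_of_dvd (Int.natAbs_pos.2 h3) (Int.natAbs_dvd_natAbs.2 ⟨w.re, h1⟩)
      omega
  have hex : ∃ k : ℕ, k ≤ z.re.natAbs + z.im.natAbs ∧ ∃ c : ℤ, c.natAbs = k ∧ Q ≤ Ideal.span {(c : Od n)} := by
    refine ⟨1, ?_, 1, rfl, ?_⟩
    · exact (hb 1 (by rw [Int.cast_one, Ideal.span_singleton_one]; exact le_top)).1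
    · rw [Int.cast_one, Ideal.span_singleton_one]; exact le_top
  classical
  obtain ⟨k, ⟨hk1, c, hck, hcQ⟩, hkmax⟩ : ∃ k : ℕ, (k ≤ z.re.natAbs + z.im.natAbs ∧ ∃ c : ℤ, c.natAbs = k ∧
      Q ≤ Ideal.span {(c : Od n)}) ∧ ∀ k' : ℕ, (k' ≤ z.re.natAbs + z.im.natAbs ∧ ∃ c : ℤ, c.natAbs = k' ∧
      Q ≤ Ideal.span {(c : Od n)}) → k' ≤ k := by
    obtain ⟨k0, hk0, hk0'⟩ := hex
    refine ⟨Nat.findGreatest (fun k => k ≤ z.re.natAbs + z.im.natAbs ∧ ∃ c : ℤ, c.natAbs = k ∧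
      Q ≤ Ideal.span {(c : Od n)}) (z.re.natAbs + z.im.natAbs), ?_, ?_⟩
    · exact Nat.findGreatest_spec (P := fun k => k ≤ z.re.natAbs + z.im.natAbs ∧ ∃ c : ℤ, c.natAbs = k ∧
        Q ≤ Ideal.span {(c : Od n)}) hk0 ⟨hk0, hk0'⟩
    · intro k' hk'
      exact Nat.le_findGreatest (P := fun k => k ≤ z.re.natAbs + z.im.natAbs ∧ ∃ c : ℤ, c.natAbs = k ∧
        Q ≤ Ideal.span {(c : Od n)}) hk'.1 hk'
  have hc0 := (hb c hcQ).2
  refine ⟨c, hc0, hcQ, ?_⟩
  intro l hl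
  have h1 := hkmax (c * l).natAbs ⟨(hb _ hl).1, c * l, rfl, hl⟩
  rw [Int.natAbs_mul, hck] at h1
  have hkpos : 0 < k := by rw [← hck]; exact Int.natAbs_pos.2 hc0
  have h2 : l.natAbs ≤ 1 := by
    by_contra h3
    push Not at h3
    nlinarith
  have h3 : l ^ 2 = (l.natAbs : ℤ) ^ 2 := (Int.natAbs_sq l).symm
  rw [h3]
  have h4 : (l.natAbs : ℤ) ≤ 1 := by exact_mod_cast h2
  nlinarith [Int.natCast_nonneg l.natAbs]

end R1

/-- R1 -/
theorem rp_exists (n : ℕ) [NeZero n] (C : ClassGroup (Od n)) : ∃ (m : ℕ) (r : ℤ), Rp n C m r := by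
  classical
  have hn : n ≠ 0 := NeZero.ne n
  have hch : ∀ l : ℕ, ∃ P : Ideal (Od n), (l.Prime → l ∣ 2 * n → P ≠ 1 ∧ ((l : ℤ) : Od n) ∈ P ∧
      ∀ (m r : ℤ) (z : Od n), (l : ℤ) ∣ m → m ∣ r ^ 2 + n → m ∣ z.re + r * z.im → z ∈ P) := by
    intro l
    by_cases h : l.Prime ∧ l ∣ 2 * n
    · obtain ⟨P, h1⟩ := R1.pl_exists n l h.1 h.2
      exact ⟨P, fun _ _ => h1⟩
    · exact ⟨⊥, fun h1 h2 => absurd ⟨h1, h2⟩ h⟩
  choose P hP1 using hch
  obtain ⟨Q, hQ, hQC, hQ0, hQS⟩ := R1.exists_avoid P (2 * n).primeFactors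
    (fun l hl => (hP1 l (Nat.prime_of_mem_primeFactors hl) (Nat.dvd_of_mem_primeFactors hl)).1)
    (fun J hJ => R1.avoid J P _ hJ (fun l hl => ⟨Nat.prime_of_mem_primeFactors hl,
      (hP1 l (Nat.prime_of_mem_primeFactors hl) (Nat.dvd_of_mem_primeFactors hl)).2.1⟩)) C
  obtain ⟨c, hc0, hcQ, hcmax⟩ := R1.content Q hQ0
  have hc0' : (c : Od n) ≠ 0 := by
    intro h
    have := congrArg Zsqrtd.re h
    simp at this
    exact hc0 this
  obtain ⟨K, hK⟩ := R1.exists_div (c : Od n) Q hcQ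
  have hKI : TM32.Inv K := by
    obtain ⟨Q', x, hx, hQQ'⟩ := hQ
    refine ⟨Ideal.span {(c : Od n)} * Q', x, hx, ?_⟩
    rw [← hQQ', ← hK, ← mul_assoc, mul_comm K]
  have hKC : mkI K hKI = C := by
    rw [← hQC, mkI_eq_iff]
    refine ⟨(c : Od n), 1, hc0', one_ne_zero, ?_⟩
    rw [hK, Ideal.span_singleton_one, Ideal.top_mul]
  have hK0 : K ≠ ⊥ := by
    rintro rfl
    rw [Ideal.mul_bot] at hK
    exact hQ0 hK.symm
  have hprim : ∀ l : ℤ, K ≤ Ideal.span {(l : Od n)} → l ^ 2 ≤ 1 := by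
    intro l hl
    apply hcmax l
    rw [← hK, Int.cast_mul, ← Ideal.span_singleton_mul_span_singleton]
    exact Ideal.mul_mono_right hl
  obtain ⟨m, r, hm, hmr, hIff⟩ := ideal_shape K hK0 hprim
  refine ⟨m, r, hm, ?_, hmr, K, hKI, hIff, hKC⟩
  rw [Nat.coprime_iff_gcd_eq_one]
  by_contra hg
  obtain ⟨l, hl, hlg⟩ := Nat.exists_prime_and_dvd hg
  have hlm : l ∣ m := hlg.trans (Nat.gcd_dvd_left _ _)
  have hl2 : l ∣ 2 * n := hlg.trans (Nat.gcd_dvd_right _ _)
  have hlS : l ∈ (2 * n).primeFactors :=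
    Nat.mem_primeFactors.2 ⟨hl, hl2, by positivity⟩
  apply hQS l hlS
  rw [← hK]
  refine Ideal.mul_le_right.trans ?_
  intro z hz
  exact (hP1 l hl hl2).2.2 m r z (by exact_mod_cast hlm) hmr ((hIff z).1 hz)

end Pool.Agent.PQ
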